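import Pool.Agent.W5h13.HW.Guess

/-!
# The columns: all but countably many members of a family are accumulation points of the family
-/

set_option autoImplicit false

open Set

namespace Pool.Agent.W5h13.HW

open Pool.Agent.W5h75.HFCs (pat length_pat isBig_uncountable)
open Pool.Agent.W5h75.Omega1 (countable_Iio countable_Iic exists_gt)

variable {e : Om → ℕ × Finset Om} {G : Om → Om → Prop} {f : Om → T}

theorem cm_self (f : Om → T) (α : Om) : cm f α α = true := if_pos rfl

theorem cm_row (f : Om → T) {α γ : Om} (h : γ < α) : cm f α γ = (f α).1 γ := by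
  unfold cm
  rw [if_neg h.ne, if_pos h]

theorem cm_col (f : Om → T) {α γ : Om} (h : α < γ) : cm f α γ = (f γ).2 α := by
  unfold cm
  rw [if_neg h.ne', if_neg (not_lt.2 h.le)]

/-- the tuples `F`, `F'` of points have the same coordinates in `H` -/
def sim (f : Om → T) (H F F' : Finset Om) : Prop :=
  ∀ h ∈ H, pat F' (fun α => cm f α h) = pat F (fun α => cm f α h)

theorem sim_trans {H F F' F'' : Finset Om} (h1 : sim f H F F') (h2 : sim f H F' F'') :
    sim f H F F'' := fun h hh => (h2 h hh).trans (h1 h hh)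

theorem sim_mono {H H' F F' : Finset Om} (h1 : sim f H F F') (h2 : H' ⊆ H) : sim f H' F F' :=
  fun h hh => h1 h (h2 hh)

/-- the coordinates above `δ` do not separate the points of a guessed family -/
theorem cols (hf : ∀ κ, Req e G κ f (f κ)) {δ : Om} {j l : ℕ} (hgood : Good (Reg e G δ j) l)
    (F : Finset Om) (hF : F.card = l) (H : Finset Om) :
    {F' ∈ Reg e G δ j | sim f (H.filter (· < δ)) F F'}.Infinite →
    {F' ∈ Reg e G δ j | sim f H F F'}.Infinite := by
  classical
  induction H using Finset.induction_on_max with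
  | empty => exact fun h => by simpa using h
  | insert κ H hmax ih =>
    intro hinf
    by_cases hκ : κ < δ
    · have h1 : (insert κ H).filter (· < δ) = insert κ H := by
        refine Finset.filter_true_of_mem fun x hx => ?_
        rcases Finset.mem_insert.1 hx with h | h
        · rw [h]; exact hκ
        · exact (hmax x h).trans hκ
      rwa [h1] at hinf
    · have h1 : (insert κ H).filter (· < δ) = H.filter (· < δ) := by
        rw [Finset.filter_insert, if_neg hκ]
      rw [h1] at hinf
      have h2 := ih hinf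
      let L : List (Om × List Bool) := H.toList.map fun h => (h, pat F (fun α => cm f α h))
      have hL : ∀ F' : Finset Om, (∀ p ∈ L, pat F' (fun α => cm f α p.1) = p.2) ↔
          sim f H F F' := by
        intro F'
        constructor
        · intro h h' hh'
          exact h (h', pat F (fun α => cm f α h')) (List.mem_map.2 ⟨h', Finset.mem_toList.2 hh', rfl⟩)
        · intro h p hp
          obtain ⟨h', hh', rfl⟩ := List.mem_map.1 hp
          exact h h' (Finset.mem_toList.1 hh')
      have h3 : {F' ∈ Reg e G δ j | ∀ p ∈ L, pat F' (fun α => cm f α p.1) = p.2} =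
          {F' ∈ Reg e G δ j | sim f H F F'} := by
        ext F'
        constructor
        · rintro ⟨h4, h5⟩
          exact ⟨h4, (hL F').1 h5⟩
        · rintro ⟨h4, h5⟩
          exact ⟨h4, (hL F').2 h5⟩
      have h4 := (hf κ).col δ (not_lt.1 hκ) j l hgood L (by
        intro p hp
        obtain ⟨h', hh', rfl⟩ := List.mem_map.1 hp
        exact hmax h' (Finset.mem_toList.1 hh')) (by rw [h3]; exact h2)
        (pat F (fun α => cm f α κ)) (by rw [length_pat, hF])
      refine h4.mono ?_
      rintro F' ⟨h5, h6, h7⟩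
      refine ⟨h5, fun h hh => ?_⟩
      rcases Finset.mem_insert.1 hh with rfl | hh
      · rw [← h7]
        exact pat_congr fun α hα => cm_col f ((h5.1 α hα).trans_le (not_lt.1 hκ))
      · exact (hL F').1 h6 h hh

/-- all but countably many members of a family are accumulation points of the family -/
theorem thin (hf : ∀ κ, Req e G κ f (f κ)) (he : Function.Surjective e) (hG : Guess G)
    {𝓛 : Set (Finset Om)} {l : ℕ} (hgood : Good 𝓛 l) :
    {F ∈ 𝓛 | ∃ H : Finset Om, {F' ∈ 𝓛 | sim f H F F'}.Finite}.Countable := by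
  classical
  by_contra hunc
  have h1 : ∀ F : Finset Om, ∃ H : Finset Om,
      F ∈ {F ∈ 𝓛 | ∃ H : Finset Om, {F' ∈ 𝓛 | sim f H F F'}.Finite} →
      {F' ∈ 𝓛 | sim f H F F'}.Finite := by
    intro F
    by_cases h : F ∈ {F ∈ 𝓛 | ∃ H : Finset Om, {F' ∈ 𝓛 | sim f H F F'}.Finite}
    · obtain ⟨H, hH⟩ := h.2
      exact ⟨H, fun _ => hH⟩
    · exact ⟨∅, fun h' => absurd h' h⟩
  choose H hH using h1
  set 𝓘 : Set (Finset Om) := {F ∈ 𝓛 | ∃ H : Finset Om, {F' ∈ 𝓛 | sim f H F F'}.Finite} with h𝓘
  obtain ⟨m, hm⟩ : ∃ m : ℕ, ¬ {F ∈ 𝓘 | (H F).card = m}.Countable := by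
    by_contra hcon
    push Not at hcon
    apply hunc
    refine (countable_iUnion hcon).mono ?_
    intro F hF
    exact mem_iUnion.2 ⟨_, hF, rfl⟩
  obtain ⟨R, t, p, S₁, hS₁, hunc₁, hR, hcount⟩ := isBig_uncountable.delta (fun F => H F)
    (fun _ _ => false) m {F ∈ 𝓘 | (H F).card = m} hm (fun F hF => le_of_eq hF.2)
  have hcount' : ∀ j ∉ R, {F ∈ S₁ | j ∈ H F}.Countable := fun j hj => not_not.1 (hcount j hj)
  have hcard : ∀ F ∈ S₁, F.card = l := fun F hF => hgood.2 F (hS₁ hF).1.1
  obtain ⟨φ, -, hφ⟩ := isBig_uncountable.pigeonhole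
    (fun (F : Finset Om) (h : R) => pat F (fun α => cm f α h.1))
    (T := {φ : R → List Bool | ∀ h, φ h ∈ {b : List Bool | b.length = l}})
    (Set.Finite.pi' fun _ => List.finite_length_eq Bool l) hunc₁ (by
      intro F hF h
      change (pat F _).length = l
      rw [length_pat, hcard F hF])
  set S₂ : Set (Finset Om) := {F ∈ S₁ |
    (fun (h : R) => pat F (fun α => cm f α h.1)) = φ} with hS₂
  have hsimR : ∀ F ∈ S₂, ∀ F' ∈ S₂, sim f R F F' := by
    intro F hF F' hF' h hh
    have h2 := congrFun hF.2 ⟨h, hh⟩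
    have h3 := congrFun hF'.2 ⟨h, hh⟩
    exact h3.trans h2.symm
  have hS₂inf : S₂.Infinite := fun h => hφ h.countable
  -- infinitely many members below a countable ordinal
  obtain ⟨s, hs1, hs2⟩ : ∃ s : ℕ → Finset Om, Function.Injective s ∧ ∀ n, s n ∈ S₂ :=
    ⟨fun n => (hS₂inf.natEmbedding S₂ n).1,
      fun n n' h => (hS₂inf.natEmbedding S₂).injective (Subtype.ext h),
      fun n => (hS₂inf.natEmbedding S₂ n).2⟩
  obtain ⟨μ, hμ⟩ := exists_gt (C := (⋃ n, (s n : Set Om)) ∪ R)
    ((countable_iUnion fun n => (s n).countable_toSet).union R.countable_toSet)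
  obtain ⟨δ, ⟨b, hb⟩, hcl, hreg⟩ := exists_guess he hG (fun _ => S₂) (fun _ => μ)
  have hμδ : μ < δ := hcl b hb
  have hreg0 := hreg 0
  have hgood' : Good (Reg e G δ 0) l := by
    rw [hreg0]
    exact ⟨hgood.1.subset fun F hF => (hS₁ hF.1.1).1.1, fun F hF => hcard F hF.1.1⟩
  have hreginf : (Reg e G δ 0).Infinite := by
    rw [hreg0]
    refine (infinite_range_of_injective hs1).mono ?_
    rintro _ ⟨n, rfl⟩
    exact ⟨hs2 n, fun α hα => (hμ α (Or.inl (mem_iUnion.2 ⟨n, hα⟩))).trans hμδ⟩
  -- a member with a far witness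
  obtain ⟨F, hF, hFR⟩ : ∃ F ∈ S₂, ∀ h ∈ H F, h < δ → h ∈ R := by
    by_contra hcon
    push Not at hcon
    apply hφ
    refine ((countable_Iio δ).biUnion
      (t := fun j _ => if j ∈ R then (∅ : Set (Finset Om)) else {F ∈ S₁ | j ∈ H F})
      fun j _ => ?_).mono ?_
    · split_ifs with h
      · exact countable_empty
      · exact hcount' j h
    · intro F hF
      obtain ⟨h, hh1, hh2, hh3⟩ := hcon F hF
      refine mem_iUnion₂.2 ⟨h, hh2, ?_⟩
      rw [if_neg hh3]
      exact ⟨hF.1, hh1⟩
  have h2 := cols hf hgood' F (hcard F hF.1) (H F) (by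
    refine hreginf.mono ?_
    intro F' hF'
    refine ⟨hF', ?_⟩
    rw [hreg0] at hF'
    refine sim_mono (hsimR F hF F' hF'.1) ?_
    intro h hh
    rw [Finset.mem_filter] at hh
    exact hFR h hh.1 hh.2)
  have h3 := hH F (hS₁ hF.1).1
  apply h2
  refine h3.subset ?_
  rintro F' ⟨h4, h5⟩
  rw [hreg0] at h4
  exact ⟨(hS₁ h4.1.1).1.1, h5⟩

end Pool.Agent.W5h13.HW
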