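import Pool.Agent.Helper292.ForceCH
import Pool.Agent.W5h75.HFCDefs

/-!
# `HFC_w` subspaces of Cantor cubes, dual discreteness, diamond: definitions
-/

set_option autoImplicit false

open Set Topology

universe u

namespace Pool.Agent.W5h13.HW

export Pool.Agent.W5h75.HFCs (cyl)
export Pool.Agent.Helper292.ForceCH (Om)

/-- `X` is an `HFC_w` subspace of the Cantor cube `2 ^ Λ`: for every `n` and every uncountable family
`𝓕` of pairwise disjoint `n`-element subsets of `Λ` there is a countable `𝓕₀ ⊆ 𝓕` such that for each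
0-1-sequence `b` of length `n` all but countably many points of `X` belong to one of the sets
`cyl F b`, `F ∈ 𝓕₀`. -/
def HFCw {Λ : Type u} [LinearOrder Λ] (X : Set (Λ → Bool)) : Prop :=
  ∀ (n : ℕ) (𝓕 : Set (Finset Λ)), ¬ 𝓕.Countable → (∀ F ∈ 𝓕, F.card = n) →
    𝓕.PairwiseDisjoint id → ∃ 𝓕₀ ⊆ 𝓕, 𝓕₀.Countable ∧
      ∀ b : List Bool, b.length = n → (X \ ⋃ F ∈ 𝓕₀, cyl F b).Countable

/-- Dually discrete spaces: every neighbourhood assignment has a discrete kernel. -/
def DuallyDiscrete (X : Type u) [TopologicalSpace X] : Prop :=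
  ∀ U : X → Set X, (∀ x, IsOpen (U x) ∧ x ∈ U x) →
    ∃ D : Set X, DiscreteTopology D ∧ ⋃ x ∈ D, U x = univ

/-- `C` is a closed unbounded subset of `ω₁` (the sentence named by `IsClubName`). -/
def IsClub (C : Om → Prop) : Prop :=
  (∀ a : Om, ∃ b : Om, a < b ∧ C b) ∧
    ∀ a : Om, (∃ b, b < a) → (∀ b : Om, b < a → ∃ c : Om, (b < c ∧ c < a) ∧ C c) → C a

/-- Jensen's diamond: the sentence which `DiamondHolds P` says is forced, evaluated in the
universe. -/
def Diamond : Prop :=
  ∃ A : Om → Om → Prop, ∀ S : Om → Prop, ∀ C : Om → Prop,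
    IsClub C → ∃ a : Om, C a ∧ ∀ b : Om, b < a → (S b ↔ A a b)

end Pool.Agent.W5h13.HW
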