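import Pool.Agent.W5h13.HW.Defs
import Pool.Agent.W5h75.HFC

/-!
# Generic functions
-/

set_option autoImplicit false

open Set

universe u

namespace Pool.Agent.W5h13.HW

open Pool.Agent.W5h75.HFCs (pat length_pat)

variable {Λ : Type u} [LinearOrder Λ]

theorem pat_congr {F : Finset Λ} {x y : Λ → Bool} (h : ∀ a ∈ F, x a = y a) : pat F x = pat F y :=
  List.map_congr_left fun a ha => h a ((Finset.mem_sort _).1 ha)

theorem agree_of_pat {F : Finset Λ} {x y : Λ → Bool} (h : pat F x = pat F y) :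
    ∀ a ∈ F, x a = y a := fun a ha => List.map_inj_left.1 h a ((Finset.mem_sort _).2 ha)

/-- each pattern is the pattern of a function -/
theorem exists_pat (F : Finset Λ) (e : List Bool) (h : e.length = F.card) :
    ∃ x : Λ → Bool, pat F x = e := by
  classical
  have hl : (F.sort (· ≤ ·)).length = e.length := by rw [Finset.length_sort, h]
  refine ⟨fun a => e.getD ((F.sort (· ≤ ·)).idxOf a) false, ?_⟩
  unfold pat
  apply List.ext_getElem
  · rw [List.length_map, hl]
  · intro i h1 h2
    rw [List.getElem_map]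
    have h3 : i < (F.sort (· ≤ ·)).length := by rwa [List.length_map] at h1
    have h4 : (F.sort (· ≤ ·)).idxOf ((F.sort (· ≤ ·))[i]) = i :=
      List.Nodup.idxOf_getElem (Finset.sort_nodup F (· ≤ ·)) i h3
    rw [h4, List.getD_eq_getElem _ _ h2]

/-- An infinite pairwise disjoint family has infinitely many members disjoint from a finite set. -/
theorem infinite_disjoint {𝓠 : Set (Finset Λ)} (hinf : 𝓠.Infinite) (hd : 𝓠.PairwiseDisjoint id)
    (K : Finset Λ) : {F ∈ 𝓠 | Disjoint F K}.Infinite := by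
  classical
  intro hfin
  have h1 : {F ∈ 𝓠 | ¬ Disjoint F K}.Finite := by
    have h2 : ∀ F : {F // F ∈ 𝓠 ∧ ¬ Disjoint F K}, ∃ a : K, a.1 ∈ F.1 := by
      rintro ⟨F, hF, hn⟩
      rw [Finset.not_disjoint_iff] at hn
      obtain ⟨a, ha, hb⟩ := hn
      exact ⟨⟨a, hb⟩, ha⟩
    choose g hg using h2
    have hinj : Function.Injective g := by
      intro F F' h
      by_contra hne
      have h3 := hd F.2.1 F'.2.1 (fun h => hne (Subtype.ext h))
      have h4 : (g F).1 ∈ F'.1 := h ▸ hg F'
      exact (Finset.disjoint_left.1 h3) (hg F) h4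
    have h3 : Finite {F // F ∈ 𝓠 ∧ ¬ Disjoint F K} := Finite.of_injective g hinj
    exact (Set.finite_coe_iff (s := {F | F ∈ 𝓠 ∧ ¬ Disjoint F K})).1 h3
  apply hinf
  refine (hfin.union h1).subset ?_
  intro F hF
  by_cases h : Disjoint F K
  · exact Or.inl ⟨hF, h⟩
  · exact Or.inr ⟨hF, h⟩

/-- Countably many infinite pairwise disjoint families and patterns are met, infinitely often, by
one function. -/
theorem exists_generic (𝓠 : ℕ → Set (Finset Λ)) (e : ℕ → List Bool)
    (hinf : ∀ n, (𝓠 n).Infinite) (hd : ∀ n, (𝓠 n).PairwiseDisjoint id)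
    (hc : ∀ n, ∀ F ∈ 𝓠 n, F.card = (e n).length) :
    ∃ g : Λ → Bool, ∀ n, {F ∈ 𝓠 n | pat F g = e n}.Infinite := by
  classical
  -- the members of the families
  have hstep : ∀ (k : ℕ) (K : Finset Λ), ∃ F ∈ 𝓠 (Nat.unpair k).1, Disjoint F K := fun k K => by
    obtain ⟨F, hF⟩ := (infinite_disjoint (hinf (Nat.unpair k).1) (hd _) K).nonempty
    exact ⟨F, hF.1, hF.2⟩
  choose Φ hΦ1 hΦ2 using hstep
  let K : ℕ → Finset Λ := fun k => Nat.rec ∅ (fun k K => K ∪ Φ k K) k
  have hK : ∀ k, K (k + 1) = K k ∪ Φ k (K k) := fun _ => rfl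
  have hmono : Monotone K := monotone_nat_of_le_succ fun k => by
    rw [hK]; exact Finset.subset_union_left
  let F : ℕ → Finset Λ := fun k => Φ k (K k)
  have hFK : ∀ k, F k ⊆ K (k + 1) := fun k => by rw [hK]; exact Finset.subset_union_right
  have hdis : ∀ k k', k < k' → Disjoint (F k) (F k') := by
    intro k k' h
    have h1 : F k ⊆ K k' := (hFK k).trans (hmono h)
    exact (Finset.disjoint_of_subset_right h1 (hΦ2 k' (K k'))).symm
  have hdis' : ∀ k k', k ≠ k' → Disjoint (F k) (F k') := by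
    intro k k' h
    rcases lt_or_gt_of_ne h with h | h
    · exact hdis _ _ h
    · exact (hdis _ _ h).symm
  have hne : ∀ k, (F k).Nonempty := by
    intro k
    rw [Finset.nonempty_iff_ne_empty]
    intro h0
    have h1 : (e (Nat.unpair k).1).length = 0 := by
      rw [← hc _ _ (hΦ1 k (K k))]
      change (F k).card = 0
      rw [h0, Finset.card_empty]
    have h2 : 𝓠 (Nat.unpair k).1 ⊆ {∅} := by
      intro G hG
      have h3 := hc _ _ hG
      rw [h1] at h3
      exact Finset.card_eq_zero.1 h3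
    exact hinf _ ((finite_singleton _).subset h2)
  choose x hx using fun k => exists_pat (F k) (e (Nat.unpair k).1) (hc _ _ (hΦ1 k (K k))).symm
  let g : Λ → Bool := fun a => if h : ∃ k, a ∈ F k then x h.choose a else false
  have hg : ∀ k, ∀ a ∈ F k, g a = x k a := by
    intro k a ha
    have h : ∃ k, a ∈ F k := ⟨k, ha⟩
    have h1 : h.choose = k := by
      by_contra hne
      exact Finset.disjoint_left.1 (hdis' _ _ hne) h.choose_spec ha
    change (if h : ∃ k, a ∈ F k then x h.choose a else false) = _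
    rw [dif_pos h, h1]
  refine ⟨g, fun n => ?_⟩
  have h1 : Function.Injective fun m : ℕ => F (Nat.pair n m) := by
    intro m m' h
    by_contra hne'
    have h2 : Nat.pair n m ≠ Nat.pair n m' := fun h3 => hne' (Nat.pair_eq_pair.1 h3).2
    have h3 := hdis' _ _ h2
    simp only at h
    rw [h, disjoint_self, Finset.bot_eq_empty] at h3
    exact (hne (Nat.pair n m')).ne_empty h3
  refine (infinite_range_of_injective h1).mono ?_
  rintro _ ⟨m, rfl⟩
  have h2 := hΦ1 (Nat.pair n m) (K (Nat.pair n m))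
  have h3 := hx (Nat.pair n m)
  rw [Nat.unpair_pair] at h2 h3
  refine ⟨h2, ?_⟩
  change pat (F (Nat.pair n m)) g = e n
  rw [← h3]
  exact pat_congr (hg _)

/-- The same for countable index types. -/
theorem exists_generic' {ι : Type*} [Countable ι] (𝓠 : ι → Set (Finset Λ)) (e : ι → List Bool)
    (hinf : ∀ n, (𝓠 n).Infinite) (hd : ∀ n, (𝓠 n).PairwiseDisjoint id)
    (hc : ∀ n, ∀ F ∈ 𝓠 n, F.card = (e n).length) :
    ∃ g : Λ → Bool, ∀ n, {F ∈ 𝓠 n | pat F g = e n}.Infinite := by
  rcases isEmpty_or_nonempty ι with h | h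
  · exact ⟨fun _ => false, fun n => (h.false n).elim⟩
  obtain ⟨s, hs⟩ := exists_surjective_nat ι
  obtain ⟨g, hg⟩ := exists_generic (fun n => 𝓠 (s n)) (fun n => e (s n)) (fun n => hinf _)
    (fun n => hd _) (fun n => hc _)
  refine ⟨g, fun n => ?_⟩
  obtain ⟨m, rfl⟩ := hs n
  exact hg m

end Pool.Agent.W5h13.HW
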