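import Pool.Agent.W5h13.HW.Rec

/-!
# Closing off and guessing
-/

set_option autoImplicit false

open Set

namespace Pool.Agent.W5h13.HW

open Pool.Agent.Helper292.ForceCH (ub lt_ub ub_le)
open Pool.Agent.W5h75.Omega1 (countable_Iic exists_gt)

/-- `G` guesses the sets of the countable ordinals -/
def Guess (G : Om → Om → Prop) : Prop := ∀ S : Om → Prop, ∀ C : Om → Prop,
    IsClub C → ∃ a : Om, C a ∧ ∀ b : Om, b < a → (S b ↔ G a b)

theorem exists_gt_image (f : Om → Om) (a : Om) : ∃ c : Om, ∀ b ≤ a, f b < c := by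
  obtain ⟨c, hc⟩ := exists_gt ((countable_Iic a).image f)
  exact ⟨c, fun b hb => hc _ ⟨b, hb, rfl⟩⟩

theorem isClub_closure (f : Om → Om) : IsClub fun a => (∃ b, b < a) ∧ ∀ b < a, f b < a := by
  constructor
  · intro a
    choose g hg using exists_gt_image f
    obtain ⟨g', hg'⟩ : ∃ g' : Om → Om, ∀ a, g a ≤ g' a ∧ a < g' a := by
      choose g2 hg2 using fun a : Om => exists_gt (countable_singleton a)
      exact ⟨fun a => max (g a) (g2 a), fun a => ⟨le_max_left _ _,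
        lt_of_lt_of_le (hg2 a a rfl) (le_max_right _ _)⟩⟩
    let s : ℕ → Om := fun k => g'^[k] a
    have hs : ∀ k, s (k + 1) = g' (s k) := fun k => Function.iterate_succ_apply' g' k a
    refine ⟨ub s, lt_ub s 0, ⟨a, lt_ub s 0⟩, fun b hb => ?_⟩
    obtain ⟨k, hk⟩ := ub_le s hb
    have h1 : f b < s (k + 1) := by
      rw [hs]
      exact lt_of_lt_of_le (hg _ b hk) (hg' _).1
    exact h1.trans (lt_ub s (k + 1))
  · intro a hne h
    refine ⟨hne, fun b hb => ?_⟩
    obtain ⟨c, ⟨h1, h2⟩, -, h3⟩ := h b hb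
    exact (h3 b h1).trans h2

theorem countable_finset (μ : Om) : {F : Finset Om | ∀ α ∈ F, α ≤ μ}.Countable := by
  classical
  have h1 : Countable {b : Om // b ≤ μ} := Set.countable_coe_iff.2 (countable_Iic μ)
  refine (countable_range fun F : Finset {b : Om // b ≤ μ} => F.map ⟨Subtype.val,
    Subtype.val_injective⟩).mono ?_
  intro F hF
  refine ⟨F.subtype (· ≤ μ), ?_⟩
  exact Finset.subtype_map_of_mem hF

/-- closing off under functions of finite sets -/
theorem exists_closing (b : ℕ × Finset Om × Finset Om → Om) :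
    ∃ g : Om → Om, ∀ μ j F H, (∀ α ∈ F, α ≤ μ) → (∀ α ∈ H, α ≤ μ) → b (j, F, H) < g μ := by
  have h1 : ∀ μ, ∃ c, ∀ j F H, (∀ α ∈ F, α ≤ μ) → (∀ α ∈ H, α ≤ μ) → b (j, F, H) < c := by
    intro μ
    have h2 : ((univ : Set ℕ) ×ˢ ({F : Finset Om | ∀ α ∈ F, α ≤ μ} ×ˢ
        {F : Finset Om | ∀ α ∈ F, α ≤ μ})).Countable :=
      countable_univ.prod ((countable_finset μ).prod (countable_finset μ))
    obtain ⟨c, hc⟩ := exists_gt (h2.image b)
    exact ⟨c, fun j F H hF hH => hc _ ⟨(j, F, H), ⟨mem_univ _, hF, hH⟩, rfl⟩⟩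
  choose g hg using h1
  exact ⟨g, hg⟩

theorem exists_level {δ : Om} (hδ : ∃ b, b < δ) (F H : Finset Om) (hF : ∀ α ∈ F, α < δ)
    (hH : ∀ α ∈ H, α < δ) : ∃ μ < δ, (∀ α ∈ F, α ≤ μ) ∧ ∀ α ∈ H, α ≤ μ := by
  classical
  obtain ⟨b, hb⟩ := hδ
  have hne : (insert b (F ∪ H)).Nonempty := Finset.insert_nonempty _ _
  refine ⟨(insert b (F ∪ H)).max' hne, ?_, ?_, ?_⟩
  · rw [Finset.max'_lt_iff]
    intro y hy
    rcases Finset.mem_insert.1 hy with h | h
    · rw [h]; exact hb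
    · rcases Finset.mem_union.1 h with h | h
      · exact hF y h
      · exact hH y h
  · intro x hx
    exact Finset.le_max' _ _ (Finset.mem_insert_of_mem (Finset.mem_union_left _ hx))
  · intro x hx
    exact Finset.le_max' _ _ (Finset.mem_insert_of_mem (Finset.mem_union_right _ hx))

/-- the traces of countably many families are guessed at a closed stage -/
theorem exists_guess {e : Om → ℕ × Finset Om} {G : Om → Om → Prop}
    (he : Function.Surjective e) (hG : Guess G) (𝓛 : ℕ → Set (Finset Om)) (f : Om → Om) :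
    ∃ δ : Om, (∃ b, b < δ) ∧ (∀ b < δ, f b < δ) ∧
      ∀ j, Reg e G δ j = {F ∈ 𝓛 j | ∀ α ∈ F, α < δ} := by
  choose k hk using he
  obtain ⟨g, hg⟩ := exists_closing fun p => k (p.1, p.2.1)
  obtain ⟨δ, ⟨hδ, hcl⟩, hgs⟩ := hG (fun ξ => (e ξ).2 ∈ 𝓛 (e ξ).1)
    (fun a => (∃ b, b < a) ∧ ∀ b < a, max (f b) (g b) < a) (isClub_closure _)
  refine ⟨δ, hδ, fun b hb => (le_max_left _ _).trans_lt (hcl b hb), fun j => ?_⟩
  ext F
  constructor
  · rintro ⟨h1, ξ, hξ, h2, h3⟩
    have h4 := (hgs ξ hξ).2 h2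
    rw [h3] at h4
    exact ⟨h4, h1⟩
  · rintro ⟨h1, h2⟩
    obtain ⟨μ, hμ, h3, -⟩ := exists_level hδ F ∅ h2 (by simp)
    have h4 : k (j, F) < δ :=
      (hg μ j F ∅ h3 (by simp)).trans ((le_max_right _ _).trans_lt (hcl μ hμ))
    refine ⟨h2, k (j, F), h4, (hgs _ h4).1 ?_, hk _⟩
    rw [hk]
    exact h1

theorem exists_code : ∃ e : Om → ℕ × Finset Om, Function.Surjective e := by
  have hOm : Cardinal.mk Om = Cardinal.aleph 1 := by simp
  have hinf : Infinite Om := by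
    rw [Cardinal.infinite_iff, hOm]
    exact Cardinal.aleph0_le_aleph 1
  have h1 : Cardinal.mk (ℕ × Finset Om) = Cardinal.mk Om := by
    rw [Cardinal.mk_prod, Cardinal.lift_id, Cardinal.lift_id, Cardinal.mk_finset_of_infinite,
      hOm, Cardinal.mk_nat]
    exact Cardinal.mul_eq_right (Cardinal.aleph0_le_aleph 1) (Cardinal.aleph0_le_aleph 1)
      Cardinal.aleph0_ne_zero
  obtain ⟨E⟩ := Cardinal.eq.1 h1
  exact ⟨E.symm, E.symm.surjective⟩

end Pool.Agent.W5h13.HW
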