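import Pool.Agent.W5h13.HW.Cols

/-!
# The space is `HFC_w` and not dually discrete
-/

set_option autoImplicit false

open Set Topology

namespace Pool.Agent.W5h13.HW

open Pool.Agent.W5h75.HFCs (pat length_pat isBig_uncountable)
open Pool.Agent.W5h75.Omega1 (countable_Iio countable_Iic exists_gt)

variable {e : Om → ℕ × Finset Om} {G : Om → Om → Prop} {f : Om → T}

/-- the points with indices in `a` form a discrete set -/
def IsDiscr (f : Om → T) (a : Set Om) : Prop :=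
  ∀ α ∈ a, ∃ H : Finset Om, ∀ α' ∈ a, α' ≠ α → ∃ h ∈ H, cm f α' h ≠ cm f α h

theorem isDiscr_az (G : Om → Om → Prop) (f : Om → T) (κ : Om) : IsDiscr f (Az G f κ) := by
  rintro α ⟨h1, h2, h3⟩
  obtain ⟨H, -, hH⟩ := h3 α h1 h2
  exact ⟨H, fun α' hα' hne => hH α' hα'.1 hα'.2.1 hne⟩

theorem getElem_eq_of_sim {H F F' : Finset Om} (h : sim f H F F') {i : ℕ} {α α' x : Om}
    (hx : x ∈ H) (h1 : (F.sort (· ≤ ·))[i]? = some α) (h2 : (F'.sort (· ≤ ·))[i]? = some α') :
    cm f α' x = cm f α x := by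
  have h3 : (F'.sort (· ≤ ·)).map (fun α => cm f α x) = (F.sort (· ≤ ·)).map
      (fun α => cm f α x) := h x hx
  have h4 := congrArg (fun l => l[i]?) h3
  simp only [List.getElem?_map, h1, h2, Option.map_some] at h4
  exact Option.some.inj h4

/-- A discrete set misses infinitely many members of a family with accumulation points of high
order. -/
theorem avoid (hf : ∀ κ, Req e G κ f (f κ)) {δ : Om} {l : ℕ}
    (hgood : ∀ j, Good (Reg e G δ j) l)
    (hsub : ∀ j, Reg e G δ (j + 1) ⊆ Reg e G δ j)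
    (hacc : ∀ j, ∀ F ∈ Reg e G δ (j + 1), ∀ H : Finset Om, (∀ h ∈ H, h < δ) →
      {F' ∈ Reg e G δ j | sim f H F F'}.Infinite)
    {a : Set Om} (ha : IsDiscr f a) :
    ∀ (n : ℕ) (I : Finset ℕ) (E : Set (Finset Om)) (H F : Finset Om), I.card = n → E.Finite →
      F ∈ Reg e G δ (n + 1) → ∃ F' ∈ Reg e G δ 0, sim f H F F' ∧ F' ∉ E ∧
        ∀ i ∈ I, ∀ α, (F'.sort (· ≤ ·))[i]? = some α → α ∉ a := by
  classical
  have hsub0 : ∀ j, Reg e G δ j ⊆ Reg e G δ 0 := by
    intro j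
    induction j with
    | zero => exact Subset.rfl
    | succ j ih => exact (hsub j).trans ih
  have hacc' : ∀ j, ∀ F ∈ Reg e G δ (j + 1), ∀ H : Finset Om,
      {F' ∈ Reg e G δ j | sim f H F F'}.Infinite := by
    intro j F hF H
    refine cols hf (hgood j) F ((hgood _).2 F hF) H (hacc j F hF _ ?_)
    intro h hh
    exact (Finset.mem_filter.1 hh).2
  intro n
  induction n with
  | zero =>
    intro I E H F hI hE hF
    obtain ⟨F', hF', hE'⟩ := (hacc' 0 F hF H).exists_notMem_finite hE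
    refine ⟨F', hF'.1, hF'.2, hE', fun i hi => ?_⟩
    rw [Finset.card_eq_zero] at hI
    rw [hI] at hi
    exact absurd hi (Finset.notMem_empty i)
  | succ n ih =>
    intro I E H F hI hE hF
    obtain ⟨F₁, ⟨hF₁, hs₁⟩, hE₁⟩ := (hacc' (n + 1) F hF H).exists_notMem_finite hE
    by_cases hcase : ∀ i ∈ I, ∀ α, (F₁.sort (· ≤ ·))[i]? = some α → α ∉ a
    · exact ⟨F₁, hsub0 _ hF₁, hs₁, hE₁, hcase⟩
    · push Not at hcase
      obtain ⟨i₀, hi₀, α₀, hα₀, hα₀a⟩ := hcase
      obtain ⟨H₀, hH₀⟩ := ha α₀ hα₀a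
      obtain ⟨F', hF', hs', hE', hI'⟩ := ih (I.erase i₀) (insert F₁ E) (H ∪ H₀) F₁
        (by rw [Finset.card_erase_of_mem hi₀, hI]; rfl) (hE.insert F₁) hF₁
      refine ⟨F', hF', sim_trans hs₁ (sim_mono hs' Finset.subset_union_left),
        fun h => hE' (Or.inr h), fun i hi α hα hαa => ?_⟩
      by_cases hii : i = i₀
      · subst hii
        have hne : α ≠ α₀ := by
          rintro rfl
          have h1 : α ∈ F' := (Finset.mem_sort _).1 (List.mem_of_getElem? hα)
          have h2 : α ∈ F₁ := (Finset.mem_sort _).1 (List.mem_of_getElem? hα₀)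
          have h3 : F' ≠ F₁ := fun h => hE' (Or.inl h)
          exact Finset.disjoint_left.1 ((hgood 0).1 hF' (hsub0 _ hF₁) h3) h1 h2
        obtain ⟨x, hx, hne'⟩ := hH₀ α hαa hne
        exact hne' (getElem_eq_of_sim hs' (Finset.mem_union_right _ hx) hα₀ hα)
      · exact hI' i (Finset.mem_erase.2 ⟨hii, hi⟩) α hα hαa

theorem avoid_inf (hf : ∀ κ, Req e G κ f (f κ)) {δ : Om} {l : ℕ}
    (hgood : ∀ j, Good (Reg e G δ j) l)
    (hsub : ∀ j, Reg e G δ (j + 1) ⊆ Reg e G δ j)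
    (hacc : ∀ j, ∀ F ∈ Reg e G δ (j + 1), ∀ H : Finset Om, (∀ h ∈ H, h < δ) →
      {F' ∈ Reg e G δ j | sim f H F F'}.Infinite)
    (hne : (Reg e G δ (l + 1)).Nonempty) {a : Set Om} (ha : IsDiscr f a) :
    {F ∈ Reg e G δ 0 | ∀ α ∈ F, α ∉ a}.Infinite := by
  classical
  intro hfin
  obtain ⟨F, hF⟩ := hne
  obtain ⟨F', hF', -, h1, h2⟩ := avoid hf hgood hsub hacc ha l (Finset.range l) _ ∅ F
    (Finset.card_range l) hfin hF
  refine h1 ⟨hF', fun α hα => ?_⟩
  obtain ⟨i, hi⟩ := List.mem_iff_getElem?.1 ((Finset.mem_sort (· ≤ ·)).2 hα)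
  refine h2 i ?_ α hi
  obtain ⟨h3, -⟩ := List.getElem?_eq_some_iff.1 hi
  rw [Finset.length_sort, (hgood 0).2 F' hF'] at h3
  exact Finset.mem_range.2 h3

/-- the space -/
def Sp (f : Om → T) : Set (Om → Bool) := range (cm f)

theorem hfcw (hf : ∀ κ, Req e G κ f (f κ)) (he : Function.Surjective e) (hG : Guess G) :
    HFCw (Sp f) := by
  classical
  intro l 𝓕 hunc hcard hdis
  -- the derived families
  let D : Set (Finset Om) → Set (Finset Om) := fun 𝓠 =>
    {F ∈ 𝓠 | ∀ H : Finset Om, {F' ∈ 𝓠 | sim f H F F'}.Infinite}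
  let 𝓛 : ℕ → Set (Finset Om) := fun j => D^[j] 𝓕
  have h𝓛 : ∀ j, 𝓛 (j + 1) = D (𝓛 j) := fun j => Function.iterate_succ_apply' D j 𝓕
  have hsub : ∀ j, 𝓛 (j + 1) ⊆ 𝓛 j := fun j => by
    rw [h𝓛]
    exact fun F hF => hF.1
  have hsub0 : ∀ j, 𝓛 j ⊆ 𝓕 := by
    intro j
    induction j with
    | zero => exact Subset.rfl
    | succ j ih => exact (hsub j).trans ih
  have hgood : ∀ j, Good (𝓛 j) l := fun j => ⟨hdis.subset (hsub0 j), fun F hF => hcard F (hsub0 j hF)⟩
  have hunc' : ∀ j, ¬ (𝓛 j).Countable := by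
    intro j
    induction j with
    | zero => exact hunc
    | succ j ih =>
      intro hc
      apply ih
      refine (hc.union (thin hf he hG (hgood j))).mono ?_
      intro F hF
      by_cases h : ∃ H : Finset Om, {F' ∈ 𝓛 j | sim f H F F'}.Finite
      · exact Or.inr ⟨hF, h⟩
      · push Not at h
        left
        rw [h𝓛]
        exact ⟨hF, h⟩
  -- closing off
  have hb : ∀ q : ℕ × Finset Om × Finset Om, ∃ μ : Om,
      {F' ∈ 𝓛 q.1 | sim f q.2.2 q.2.1 F'}.Infinite →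
      {F' ∈ 𝓛 q.1 | sim f q.2.2 q.2.1 F' ∧ ∀ α ∈ F', α < μ}.Infinite := by
    intro q
    by_cases h : {F' ∈ 𝓛 q.1 | sim f q.2.2 q.2.1 F'}.Infinite
    · have h1 := h.natEmbedding
      obtain ⟨μ, hμ⟩ := exists_gt (C := ⋃ n, ((h.natEmbedding _ n).1 : Set Om))
        (countable_iUnion fun n => (h.natEmbedding _ n).1.countable_toSet)
      refine ⟨μ, fun _ => ?_⟩
      have hinj : Function.Injective fun n => (h.natEmbedding _ n).1 := fun n n' hn =>
        (h.natEmbedding _).injective (Subtype.ext hn)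
      refine (infinite_range_of_injective hinj).mono ?_
      rintro _ ⟨n, rfl⟩
      exact ⟨(h.natEmbedding _ n).2.1, (h.natEmbedding _ n).2.2,
        fun α hα => hμ α (mem_iUnion.2 ⟨n, hα⟩)⟩
    · obtain ⟨μ, -⟩ := exists_gt (C := (∅ : Set Om)) countable_empty
      exact ⟨μ, fun h' => absurd h' h⟩
  choose b hb using hb
  obtain ⟨g, hg⟩ := exists_closing b
  obtain ⟨F₀, hF₀⟩ : (𝓛 (l + 1)).Nonempty := by
    rw [Set.nonempty_iff_ne_empty]
    intro h
    exact hunc' (l + 1) (by rw [h]; exact countable_empty)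
  obtain ⟨μ₀, hμ₀⟩ := exists_gt F₀.countable_toSet
  obtain ⟨δ, hδ, hcl, hreg⟩ := exists_guess he hG 𝓛 (fun μ => max (g μ) μ₀)
  have hμδ : μ₀ < δ := by
    obtain ⟨b, hb⟩ := hδ
    exact (le_max_right _ _).trans_lt (hcl b hb)
  have hgood' : ∀ j, Good (Reg e G δ j) l := by
    intro j
    rw [hreg j]
    exact ⟨(hgood j).1.subset fun F hF => hF.1, fun F hF => (hgood j).2 F hF.1⟩
  have key : ∀ a : Set Om, IsDiscr f a → {F ∈ Reg e G δ 0 | ∀ α ∈ F, α ∉ a}.Infinite := by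
    intro a ha
    refine avoid_inf hf hgood' (fun j => ?_) (fun j F hF H hH => ?_) ⟨F₀, ?_⟩ ha
    · rw [hreg j, hreg (j + 1)]
      exact fun F hF => ⟨hsub j hF.1, hF.2⟩
    · rw [hreg (j + 1)] at hF
      obtain ⟨μ, hμ, h1, h2⟩ := exists_level hδ F H hF.2 hH
      have h3 : {F' ∈ 𝓛 j | sim f H F F'}.Infinite := by
        have h4 := hF.1
        rw [h𝓛] at h4
        exact h4.2 H
      have h4 := hb (j, F, H) h3
      have h5 : b (j, F, H) < δ :=
        (hg μ j F H h1 h2).trans ((le_max_left _ _).trans_lt (hcl μ hμ))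
      refine h4.mono ?_
      rintro F' ⟨h6, h7, h8⟩
      rw [hreg j]
      exact ⟨⟨h6, fun α hα => (h8 α hα).trans h5⟩, h7⟩
    · rw [hreg (l + 1)]
      exact ⟨hF₀, fun α hα => (hμ₀ α hα).trans hμδ⟩
  refine ⟨Reg e G δ 0, ?_, ?_, fun c hc => ?_⟩
  · rw [hreg 0]
    exact fun F hF => hsub0 0 hF.1
  · refine (countable_finset δ).mono fun F hF => ?_
    exact fun α hα => (hF.1 α hα).le
  · refine ((countable_Iio δ).image (cm f)).mono ?_
    rintro _ ⟨⟨β, rfl⟩, hβ⟩
    by_contra hcon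
    have hβδ : δ ≤ β := not_lt.1 fun h => hcon ⟨β, h, rfl⟩
    obtain ⟨F, hF, hpat⟩ := (hf β).row δ hβδ 0 l (hgood' 0) (key _ (isDiscr_az G f β)) c hc
    apply hβ
    refine mem_iUnion₂.2 ⟨F, hF, ?_⟩
    change pat F (cm f β) = c
    rw [← hpat]
    exact pat_congr fun α hα => cm_row f ((hF.1 α hα).trans_le hβδ)

/-- discrete sets of indices are countable -/
theorem discr_countable (hf : ∀ κ, Req e G κ f (f κ)) (he : Function.Surjective e)
    (hG : Guess G) {a : Set Om} (ha : IsDiscr f a) : a.Countable := by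
  classical
  have hgood : Good ((fun α : Om => ({α} : Finset Om)) '' a) 1 := by
    constructor
    · rintro _ ⟨α, hα, rfl⟩ _ ⟨α', hα', rfl⟩ hne
      exact Finset.disjoint_singleton.2 fun h => hne (by rw [h])
    · rintro _ ⟨α, hα, rfl⟩
      exact Finset.card_singleton α
  have h1 := thin hf he hG hgood
  have h2 : (fun α : Om => ({α} : Finset Om)) '' a ⊆
      {F ∈ (fun α : Om => ({α} : Finset Om)) '' a |
        ∃ H : Finset Om, {F' ∈ (fun α : Om => ({α} : Finset Om)) '' a | sim f H F F'}.Finite} := by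
    rintro _ ⟨α, hα, rfl⟩
    refine ⟨⟨α, hα, rfl⟩, ?_⟩
    obtain ⟨H, hH⟩ := ha α hα
    refine ⟨H, (finite_singleton ({α} : Finset Om)).subset ?_⟩
    rintro _ ⟨⟨α', hα', rfl⟩, hs⟩
    by_contra hne
    have hne' : α' ≠ α := fun h => hne (by rw [h]; rfl)
    obtain ⟨x, hx, hxn⟩ := hH α' hα' hne'
    have h3 := hs x hx
    unfold pat at h3
    simp only [Finset.sort_singleton, List.map_cons, List.map_nil, List.cons.injEq, and_true] at h3
    exact hxn h3
  have h3 := h1.mono h2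
  refine (countable_of_injective_of_countable_image (s := a)
    (f := fun α : Om => ({α} : Finset Om)) ?_ h3)
  exact fun α _ α' _ h => Finset.singleton_injective h

theorem not_dually_discrete (hf : ∀ κ, Req e G κ f (f κ)) (he : Function.Surjective e)
    (hG : Guess G) : ¬ DuallyDiscrete (Sp f) := by
  classical
  intro hdd
  have hidx : ∀ x : Sp f, ∃ β : Om, cm f β = x.1 := fun x => x.2
  choose ix hix using hidx
  obtain ⟨D, hD, hcov⟩ := hdd (fun x => {y | y.1 (ix x) = true}) (by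
    intro x
    constructor
    · have h1 : Continuous fun y : Sp f => y.1 (ix x) :=
        (continuous_apply (ix x)).comp continuous_subtype_val
      exact (isOpen_discrete ({true} : Set Bool)).preimage h1
    · change x.1 (ix x) = true
      rw [← hix x]
      exact cm_self f _)
  -- the set of indices is discrete
  have ha : IsDiscr f (ix '' D) := by
    rintro _ ⟨x, hx, rfl⟩
    obtain ⟨O, hO, hOD⟩ := (isOpen_induced_iff.1 ((discreteTopology_iff_isOpen_singleton.1 hD) ⟨x, hx⟩))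
    obtain ⟨O', hO', hOO⟩ := isOpen_induced_iff.1 hO
    have hxO : x.1 ∈ O' := by
      have h1 : (⟨x, hx⟩ : D) ∈ ((↑) : D → Sp f) ⁻¹' O := by
        rw [hOD]; rfl
      have h2 : x ∈ O := h1
      rw [← hOO] at h2
      exact h2
    obtain ⟨H, u, hu, huO⟩ := isOpen_pi_iff.1 hO' x.1 hxO
    refine ⟨H, ?_⟩
    rintro _ ⟨y, hy, rfl⟩ hne
    by_contra hcon
    push Not at hcon
    apply hne
    have h1 : y.1 ∈ O' := by
      apply huO
      intro h hh
      have h2 := hcon h hh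
      rw [hix, hix] at h2
      rw [h2]
      exact (hu h hh).2
    have h2 : y ∈ O := by
      rw [← hOO]
      exact h1
    have h3 : (⟨y, hy⟩ : D) ∈ ((↑) : D → Sp f) ⁻¹' O := h2
    rw [hOD] at h3
    have h4 : y = x := congrArg Subtype.val (h3 : (⟨y, hy⟩ : D) = ⟨x, hx⟩)
    rw [h4]
  have hc := discr_countable hf he hG ha
  choose! H hH using ha
  obtain ⟨μ, hμ⟩ := exists_gt (C := ix '' D ∪ ⋃ α ∈ ix '' D, (H α : Set Om))
    (hc.union (hc.biUnion fun α _ => (H α).countable_toSet))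
  obtain ⟨β, ⟨⟨b, hb⟩, hcl⟩, hβ⟩ := hG (fun ξ => ξ ∈ ix '' D)
    (fun a => (∃ b, b < a) ∧ ∀ b < a, (fun _ => μ) b < a) (isClub_closure _)
  have hμβ : μ < β := hcl b hb
  have hdisc : Disc G f β := by
    intro α hα hGα
    have h1 := (hβ α hα).2 hGα
    refine ⟨H α, fun h hh => (hμ h (Or.inr (mem_iUnion₂.2 ⟨α, h1, hh⟩))).trans hμβ, ?_⟩
    intro α' hα' hGα' hne
    exact hH α h1 α' ((hβ α' hα').2 hGα') hne
  have hzero : ∀ α ∈ ix '' D, cm f β α = false := by
    intro α hα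
    have h1 : α < β := (hμ α (Or.inl hα)).trans hμβ
    rw [cm_row f h1]
    exact (hf β).zero α ⟨h1, (hβ α h1).1 hα, hdisc⟩
  have h1 : (⟨cm f β, β, rfl⟩ : Sp f) ∈ ⋃ x ∈ D, {y : Sp f | y.1 (ix x) = true} := by
    rw [hcov]
    exact mem_univ _
  obtain ⟨x, hx, hx1⟩ := mem_iUnion₂.1 h1
  have h2 : cm f β (ix x) = true := hx1
  rw [hzero _ ⟨x, hx, rfl⟩] at h2
  exact Bool.noConfusion h2

theorem main (hd : Diamond) : ∃ X : Set (Om → Bool), HFCw X ∧ ¬ DuallyDiscrete X := by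
  obtain ⟨G, hG⟩ := hd
  obtain ⟨e, he⟩ := exists_code
  obtain ⟨f, hf⟩ := exists_matrix e G
  exact ⟨Sp f, hfcw hf he hG, not_dually_discrete hf he hG⟩

end Pool.Agent.W5h13.HW
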