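import Pool.Agent.W5h13.HW.Gen

/-!
# The recursive construction of the matrix
-/

set_option autoImplicit false

open Set

namespace Pool.Agent.W5h13.HW

open Pool.Agent.W5h75.HFCs (pat length_pat)
open Pool.Agent.Helper292.ForceCH (countable_Iio exists_bound)

theorem exists_rec {I T : Type} [LinearOrder I] [WellFoundedLT I] [Inhabited T]
    (R : I → (I → T) → T → Prop) (hex : ∀ i f, ∃ t, R i f t)
    (hcongr : ∀ i f g t, (∀ j < i, f j = g j) → R i f t → R i g t) :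
    ∃ f : I → T, ∀ i, R i f (f i) := by
  classical
  choose s hs using hex
  let F : (i : I) → ((j : I) → j < i → T) → T := fun i rec =>
    s i (fun j => if h : j < i then rec j h else default)
  let f : I → T := (wellFounded_lt (α := I)).fix F
  have hf : ∀ i, f i = F i (fun j _ => f j) := fun i => WellFounded.fix_eq _ F i
  refine ⟨f, fun i => ?_⟩
  have h1 := hs i (fun j => if h : j < i then f j else default)
  have h2 : f i = s i (fun j => if h : j < i then f j else default) := hf i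
  rw [h2]
  refine hcongr i _ _ _ ?_ h1
  intro j hj
  rw [dif_pos hj]

/-- row and column -/
abbrev T : Type := (Om → Bool) × (Om → Bool)

/-- the matrix of a sequence of rows and columns -/
noncomputable def cm (f : Om → T) (α γ : Om) : Bool :=
  if γ = α then true else if γ < α then (f α).1 γ else (f γ).2 α

theorem cm_congr {f g : Om → T} {κ : Om} (h : ∀ j < κ, f j = g j) {α γ : Om} (hα : α < κ)
    (hγ : γ < κ) : cm f α γ = cm g α γ := by
  unfold cm
  rw [h α hα, h γ hγ]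

/-- the families of finite sets guessed at `δ` -/
def Reg (e : Om → ℕ × Finset Om) (G : Om → Om → Prop) (δ : Om) (j : ℕ) : Set (Finset Om) :=
  {F | (∀ α ∈ F, α < δ) ∧ ∃ ξ < δ, G δ ξ ∧ e ξ = (j, F)}

/-- pairwise disjoint families of `l`-element sets -/
def Good (𝓠 : Set (Finset Om)) (l : ℕ) : Prop := 𝓠.PairwiseDisjoint id ∧ ∀ F ∈ 𝓠, F.card = l

/-- the set guessed at `κ` is discrete at the stage `κ` -/
def Disc (G : Om → Om → Prop) (f : Om → T) (κ : Om) : Prop :=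
  ∀ α < κ, G κ α → ∃ H : Finset Om, (∀ h ∈ H, h < κ) ∧
    ∀ α' < κ, G κ α' → α' ≠ α → ∃ h ∈ H, cm f α' h ≠ cm f α h

/-- the set on which the row `κ` vanishes -/
def Az (G : Om → Om → Prop) (f : Om → T) (κ : Om) : Set Om :=
  {ξ | ξ < κ ∧ G κ ξ ∧ Disc G f κ}

theorem disc_congr {G : Om → Om → Prop} {f g : Om → T} {κ : Om} (h : ∀ j < κ, f j = g j)
    (hd : Disc G f κ) : Disc G g κ := by
  intro α hα hG
  obtain ⟨H, hH, h1⟩ := hd α hα hG
  refine ⟨H, hH, fun α' hα' hG' hne => ?_⟩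
  obtain ⟨x, hx, h2⟩ := h1 α' hα' hG' hne
  refine ⟨x, hx, ?_⟩
  rw [← cm_congr h hα' (hH x hx), ← cm_congr h hα (hH x hx)]
  exact h2

theorem az_congr {G : Om → Om → Prop} {f g : Om → T} {κ : Om} (h : ∀ j < κ, f j = g j) :
    Az G f κ = Az G g κ := by
  ext ξ
  constructor
  · rintro ⟨h1, h2, h3⟩
    exact ⟨h1, h2, disc_congr h h3⟩
  · rintro ⟨h1, h2, h3⟩
    exact ⟨h1, h2, disc_congr (fun j hj => (h j hj).symm) h3⟩

/-- the demands on the row and the column number `κ` -/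
structure Req (e : Om → ℕ × Finset Om) (G : Om → Om → Prop) (κ : Om) (f : Om → T) (t : T) :
    Prop where
  col : ∀ δ ≤ κ, ∀ (j l : ℕ), Good (Reg e G δ j) l → ∀ L : List (Om × List Bool),
    (∀ p ∈ L, p.1 < κ) →
    {F ∈ Reg e G δ j | ∀ p ∈ L, pat F (fun α => cm f α p.1) = p.2}.Infinite →
    ∀ b : List Bool, b.length = l →
    {F ∈ Reg e G δ j | (∀ p ∈ L, pat F (fun α => cm f α p.1) = p.2) ∧ pat F t.2 = b}.Infinite
  row : ∀ δ ≤ κ, ∀ (j l : ℕ), Good (Reg e G δ j) l →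
    {F ∈ Reg e G δ j | ∀ α ∈ F, α ∉ Az G f κ}.Infinite → ∀ b : List Bool, b.length = l →
    ∃ F ∈ Reg e G δ j, pat F t.1 = b
  zero : ∀ α ∈ Az G f κ, t.1 α = false

theorem exists_req (e : Om → ℕ × Finset Om) (G : Om → Om → Prop) (κ : Om) (f : Om → T) :
    ∃ t, Req e G κ f t := by
  classical
  have hc1 : Countable {b : Om // b < κ} := countable_Iio κ
  have hc2 : Countable {b : Om // b ≤ κ} := by
    have h1 : (Iio κ).Countable := Set.countable_coe_iff.1 (countable_Iio κ)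
    have h2 : (Iic κ).Countable := by
      rw [← Iio_insert]
      exact h1.insert κ
    exact Set.countable_coe_iff.2 h2
  -- columns
  let 𝓠 : {b : Om // b ≤ κ} × ℕ × List ({b : Om // b < κ} × List Bool) → Set (Finset Om) :=
    fun q => {F ∈ Reg e G q.1.1 q.2.1 | ∀ p ∈ q.2.2, pat F (fun α => cm f α p.1.1) = p.2}
  obtain ⟨C, hC⟩ := exists_generic'
    (ι := {q : ({b : Om // b ≤ κ} × ℕ × List ({b : Om // b < κ} × List Bool)) × List Bool //
      Good (Reg e G q.1.1.1 q.1.2.1) q.2.length ∧ (𝓠 q.1).Infinite})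
    (fun q => 𝓠 q.1.1) (fun q => q.1.2) (fun q => q.2.2)
    (fun q => q.2.1.1.subset fun F hF => hF.1) (fun q F hF => q.2.1.2 F hF.1)
  -- rows
  let 𝓡 : {b : Om // b ≤ κ} × ℕ → Set (Finset Om) :=
    fun q => {F ∈ Reg e G q.1.1 q.2 | ∀ α ∈ F, α ∉ Az G f κ}
  obtain ⟨R, hR⟩ := exists_generic'
    (ι := {q : ({b : Om // b ≤ κ} × ℕ) × List Bool //
      Good (Reg e G q.1.1.1 q.1.2) q.2.length ∧ (𝓡 q.1).Infinite})
    (fun q => 𝓡 q.1.1) (fun q => q.1.2) (fun q => q.2.2)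
    (fun q => q.2.1.1.subset fun F hF => hF.1) (fun q F hF => q.2.1.2 F hF.1)
  refine ⟨(fun α => if α ∈ Az G f κ then false else R α, C), ?_, ?_, ?_⟩
  · intro δ hδ j l hgood L hL hinf b hb
    let L' : List ({b : Om // b < κ} × List Bool) :=
      L.attach.map fun p => (⟨p.1.1, hL p.1 p.2⟩, p.1.2)
    have hL' : ∀ F : Finset Om, (∀ p ∈ L', pat F (fun α => cm f α p.1.1) = p.2) ↔
        ∀ p ∈ L, pat F (fun α => cm f α p.1) = p.2 := by
      intro F
      constructor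
      · intro h p hp
        exact h (⟨p.1, hL p hp⟩, p.2) (List.mem_map.2 ⟨⟨p, hp⟩, List.mem_attach _ _, rfl⟩)
      · intro h p hp
        obtain ⟨q, -, rfl⟩ := List.mem_map.1 hp
        exact h q.1 q.2
    have h1 : 𝓠 (⟨δ, hδ⟩, j, L') =
        {F ∈ Reg e G δ j | ∀ p ∈ L, pat F (fun α => cm f α p.1) = p.2} := by
      ext F
      constructor
      · rintro ⟨h2, h3⟩
        exact ⟨h2, (hL' F).1 h3⟩
      · rintro ⟨h2, h3⟩
        exact ⟨h2, (hL' F).2 h3⟩
    subst hb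
    have h2 := hC ⟨((⟨δ, hδ⟩, j, L'), b), hgood, by rw [h1]; exact hinf⟩
    refine h2.mono ?_
    rintro F ⟨h3, h4⟩
    have h5 : F ∈ 𝓠 (⟨δ, hδ⟩, j, L') := h3
    rw [h1] at h5
    exact ⟨h5.1, h5.2, h4⟩
  · intro δ hδ j l hgood hinf b hb
    subst hb
    obtain ⟨F, ⟨h1, h2⟩, h3⟩ := (hR ⟨((⟨δ, hδ⟩, j), b), hgood, hinf⟩).nonempty
    refine ⟨F, h1, ?_⟩
    refine Eq.trans (pat_congr fun α hα => ?_) h3
    exact if_neg (h2 α hα)
  · intro α hα
    exact if_pos hα

theorem req_congr {e : Om → ℕ × Finset Om} {G : Om → Om → Prop} {κ : Om} {f g : Om → T} {t : T}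
    (h : ∀ j < κ, f j = g j) (hr : Req e G κ f t) : Req e G κ g t := by
  have h1 : ∀ δ ≤ κ, ∀ j, ∀ F ∈ Reg e G δ j, ∀ L : List (Om × List Bool), (∀ p ∈ L, p.1 < κ) →
      ((∀ p ∈ L, pat F (fun α => cm f α p.1) = p.2) ↔
        ∀ p ∈ L, pat F (fun α => cm g α p.1) = p.2) := by
    intro δ hδ j F hF L hL
    refine forall₂_congr fun p hp => ?_
    rw [pat_congr (F := F) (x := fun α => cm f α p.1) (y := fun α => cm g α p.1)
      fun α hα => cm_congr h ((hF.1 α hα).trans_le hδ) (hL p hp)]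
  refine ⟨?_, ?_, ?_⟩
  · intro δ hδ j l hgood L hL hinf b hb
    have h2 : {F ∈ Reg e G δ j | ∀ p ∈ L, pat F (fun α => cm f α p.1) = p.2}.Infinite := by
      refine hinf.mono ?_
      rintro F ⟨h3, h4⟩
      exact ⟨h3, (h1 δ hδ j F h3 L hL).2 h4⟩
    refine (hr.col δ hδ j l hgood L hL h2 b hb).mono ?_
    rintro F ⟨h3, h4, h5⟩
    exact ⟨h3, (h1 δ hδ j F h3 L hL).1 h4, h5⟩
  · rw [← az_congr h]
    exact hr.row
  · rw [← az_congr h]
    exact hr.zero

theorem exists_matrix (e : Om → ℕ × Finset Om) (G : Om → Om → Prop) :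
    ∃ f : Om → T, ∀ κ, Req e G κ f (f κ) :=
  exists_rec (Req e G) (exists_req e G) fun _ _ _ _ h hr => req_congr h hr

end Pool.Agent.W5h13.HW
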